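import Pool.Agent.H143R3.MT.D2
import Pool.Agent.H143R3.MT.F
import Pool.Agent.H143R3.MT.Win2
import Pool.Agent.H663R5.MTA1
import Pool.Agent.H237R3.MT.A2
import Pool.Agent.H509R3.MT.A3
import Pool.Agent.H174R3.MT.A4
import Pool.Agent.H973R3.MT.A5
import Pool.Agent.H62R3.MT.Cross
import Pool.Agent.H608R3.MTE1
import Pool.Agent.H224R3.MT.E2
import Pool.Agent.H138R3.MT.E3
import Pool.Agent.H844R3.MT.G
import Pool.Agent.H532R3.MT.TL
import Pool.Agent.H885R3.MT.Pos
import Pool.Agent.H886R3.TaskMTQ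
import Pool.Agent.H610R3.MT.R
import Pool.Agent.H337R3.MT.Rev
import Pool.Agent.H662R3.MT.Split
import Pool.Agent.H421R3.MT.Hit
import Pool.Agent.H996R3.MT.B

/-!
# One-dimensional random walk among moving hard traps: the scale `t^(1/3)` is wrong

Definitions used (all in `Pool/Agent/H143R3/MT/Stmts.lean`):

* `skellam s`: the law of `N⁺ - N⁻` for independent Poisson variables of mean `s / 2`, i.e. the
  law at time `s` of the continuous time simple symmetric random walk with jump rate `1`.
* `IsWalk P κ X`: `X` is a continuous time simple symmetric random walk on `ℤ` with jump rate `κ`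
  started at `0` (independent increments, `X t - X s` has law `skellam (κ (t - s))`, almost surely
  `X 0 = 0` and the paths are right-continuous and take finitely many values on bounded intervals).
* `TrapModel P κ ρ ν X N Y`: `X` is such a walk, `N y` is Poisson of mean `ν`, the `Y y j` are such
  walks with jump rate `ρ`, everything is independent; the `j`-th trap (`j < N y`) that starts at
  the site `y` is at `y + Y y j s` at time `s`.
* `alive X N Y t`: the event that `X` shares no site with a trap during `[0, t]` (`γ = ∞`).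
* `supX X t`: `sup_{s ≤ t} |X s|`.
* `FluctuatesOnScale Q X`: the definition of the problem, under the laws `Q t`.
* `W X t`: `t^(-1/3) (min_{s ≤ t} X s, max_{s ≤ t} X s)`.
-/

namespace Pool.Agent.Results.MP_e5e566_pr.LogCorrection

open MeasureTheory ProbabilityTheory Filter Topology
open scoped ENNReal NNReal
open Pool.Agent.H143R3.MT

universe u

/-- Hard moving traps in dimension one (`γ = ∞`, jump rates `κ, ρ > 0`, density `ν`). The survival
probability is positive; for some `ε > 0` the probability that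
`sup_{s ≤ t} |X s| ≤ ε (t log t)^(1/3)`, given survival up to `t`, tends to `0`; hence `X` does not
fluctuate on the scale `t^(1/3)`, and the laws of the rescaled range end points `W t` given
survival do not converge weakly to a probability measure. -/
theorem result {κ ρ ν : ℝ≥0} (hκ : 0 < κ) (hρ : 0 < ρ)
    {Ω : Type u} [MeasurableSpace Ω] {P : Measure Ω} [IsProbabilityMeasure P]
    {X : ℝ≥0 → Ω → ℤ} {N : ℤ → Ω → ℕ} {Y : ℤ → ℕ → ℝ≥0 → Ω → ℤ}
    (hM : TrapModel P κ ρ ν X N Y) :
    (∀ t : ℝ≥0, 0 < P (alive X N Y t)) ∧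
    (∃ ε : ℝ, 0 < ε ∧ Tendsto (fun t : ℝ≥0 =>
      (ProbabilityTheory.cond P (alive X N Y t))
        {ω | supX X t ω ≤ ENNReal.ofReal (ε * ((t : ℝ) * Real.log t) ^ (1 / 3 : ℝ))})
      atTop (𝓝 0)) ∧
    ¬ FluctuatesOnScale (fun t => ProbabilityTheory.cond P (alive X N Y t)) X ∧
    ¬ ∃ μ : Measure (ℝ × ℝ), IsProbabilityMeasure μ ∧
      ∀ f : BoundedContinuousFunction (ℝ × ℝ) ℝ,
        Tendsto (fun t : ℝ≥0 => ∫ ω, f (W X t ω) ∂(ProbabilityTheory.cond P (alive X N Y t)))
          atTop (𝓝 (∫ x, f x ∂μ)) := by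
  have h := final.{u} Pool.Agent.H663R5.MTA1.taskA1 Pool.Agent.H237R3.MT.A2.taskA2
    Pool.Agent.H509R3.MT.taskA3 Pool.Agent.H174R3.MTA4.taskA4 Pool.Agent.H973R3.MT.taskA5
    H143R3MT.H610.taskR Pool.Agent.H996R3.MTB.taskB Pool.Agent.H608R3.MTE1.taskE1
    Pool.Agent.H224R3.MT.taskE2 Pool.Agent.H138R3.MT.taskE3 Pool.Agent.H532R3.MT.TL.taskL
    Pool.Agent.H844R3.MT.G.taskG Pool.Agent.H885R3.MT.taskPos Pool.Agent.H62R3.MT.taskCross
    Pool.Agent.H421R3.MT.taskHit Pool.Agent.H337R3.MTRev.taskRev Pool.Agent.H662R3.MT.taskSplit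
    taskWin taskD taskF Pool.Agent.H886R3.MTQ.taskQ
  exact ⟨h.1 Ω P κ ρ ν X N Y hM, h.2 κ ρ ν hκ hρ Ω P X N Y hM⟩

end Pool.Agent.Results.MP_e5e566_pr.LogCorrection
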